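import Pool.Agent.H926Z.KH.Main

/-! From an inaccessible cardinal: a model of ZFC with no Kurepa tree over which adding one Cohen
real adds a Kurepa tree. -/

theorem Pool.Agent.Results.MP_7549fd_lc.ACohenKurepa.result :
    (∃ κ : Cardinal.{0}, κ.IsInaccessible) →
      ∃ W : Set ZFSet.{0}, CohenE.CTM W ∧ ¬ Pool.Agent.H926Z.KH.KH W ∧
        (∃ x, CohenE.Generic W x) ∧
        ∀ x, CohenE.Generic W x → Pool.Agent.H926Z.KH.KH (CohenE.Ext W x) :=
  Pool.Agent.H926Z.KH.main
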